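import Pool.Agent.N869.GK.L.Stm

/-!
# GK/EXP: the moments are sums over unlinked decorations
-/

set_option autoImplicit false
set_option linter.unusedVariables false

open scoped Classical

namespace Pool.Agent.N527.GK.Exp

open Finset Pool.Agent.N869.GK
open Pool.Agent.N869.QT.L (prs ext Lc Fam)

theorem sum_Z2 {β : Type} [AddCommMonoid β] (f : ZMod 2 → β) : ∑ a, f a = f 0 + f 1 := by
  have : (univ : Finset (ZMod 2)) = {0, 1} := by decide
  rw [this, sum_pair (by decide)]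

theorem Z2_cases (a : ZMod 2) : a = 0 ∨ a = 1 := by
  revert a
  decide

theorem Z2_add_self (a : ZMod 2) : a + a = 0 := by
  revert a
  decide

theorem sn_zero : sn 0 = 1 := by simp [sn]

theorem sn_one : sn 1 = -1 := by simp [sn]

theorem sn_add (a b : ZMod 2) : sn (a + b) = sn a * sn b := by
  rcases Z2_cases a with rfl | rfl <;> rcases Z2_cases b with rfl | rfl
  · rw [add_zero, sn_zero, mul_one]
  · rw [zero_add, sn_zero, one_mul]
  · rw [add_zero, sn_zero, mul_one]
  · rw [Z2_add_self, sn_zero, sn_one]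
    norm_num

theorem sn_sum {κ : Type} (s : Finset κ) (f : κ → ZMod 2) :
    sn (∑ i ∈ s, f i) = ∏ i ∈ s, sn (f i) := by
  induction s using Finset.induction_on with
  | empty => rw [sum_empty, prod_empty, sn_zero]
  | insert a s ha ih => rw [sum_insert ha, prod_insert ha, sn_add, ih]

theorem sum_V {β : Type} [AddCommMonoid β] (f : V → β) :
    ∑ a, f a = f ![0, 0] + f ![0, 1] + (f ![1, 0] + f ![1, 1]) := by
  rw [Fintype.sum_equiv (piFinTwoEquiv (fun _ => ZMod 2)) f (fun p => f ![p.1, p.2])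
    (fun v => by
      congr 1
      funext i
      fin_cases i <;> rfl)]
  rw [Fintype.sum_prod_type, sum_Z2, sum_Z2, sum_Z2]

theorem sum_om (r : V) : ∑ w : V, sn (om w r) = if r = 0 then 4 else 0 := by
  have hr : r = ![r 0, r 1] := by
    funext i
    fin_cases i <;> rfl
  rw [sum_V, hr]
  rcases Z2_cases (r 0) with h0 | h0 <;> rcases Z2_cases (r 1) with h1 | h1 <;>
    simp only [h0, h1, om, Matrix.cons_val_zero, Matrix.cons_val_one, mul_zero, mul_one,
      add_zero, zero_add, sn_zero, sn_one, Z2_add_self]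
  · rw [if_pos (by decide)]
    norm_num
  · rw [if_neg (by decide)]
    norm_num
  · rw [if_neg (by decide)]
    norm_num
  · rw [if_neg (by decide)]
    norm_num

/-- detection of the zero vectors -/
theorem detect {R : Type} [Fintype R] [DecidableEq R] (T : Finset R) (ρ : R → V) :
    (if ∀ i ∈ T, ρ i = 0 then (1 : ℝ) else 0) * 4 ^ T.card =
      ∑ w : R → V, if ∀ i, i ∉ T → w i = 0 then sn (∑ i ∈ T, om (w i) (ρ i)) else 0 := by
  have h1 : (if ∀ i ∈ T, ρ i = 0 then (1 : ℝ) else 0) * 4 ^ T.card =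
      ∏ i ∈ T, (if ρ i = 0 then (4 : ℝ) else 0) := by
    split_ifs with h
    · rw [one_mul, prod_congr rfl (fun i hi => if_pos (h i hi)), prod_const]
    · push Not at h
      obtain ⟨i, hi, hi'⟩ := h
      rw [zero_mul, prod_eq_zero hi (if_neg hi')]
  have h2 : ∀ i : R, (if i ∈ T then (if ρ i = 0 then (4 : ℝ) else 0) else 1) =
      ∑ w : V, if i ∈ T then sn (om w (ρ i)) else (if w = 0 then 1 else 0) := by
    intro i
    by_cases hi : i ∈ T
    · simp only [if_pos hi]
      rw [sum_om]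
    · simp only [if_neg hi]
      rw [Finset.sum_ite_eq' univ (0 : V), if_pos (mem_univ _)]
  have h3 : ∏ i ∈ T, (if ρ i = 0 then (4 : ℝ) else 0) =
      ∏ i, (if i ∈ T then (if ρ i = 0 then (4 : ℝ) else 0) else 1) := by
    rw [Finset.prod_ite_mem univ T, univ_inter]
  rw [h1, h3, prod_congr rfl fun i _ => h2 i, Finset.prod_univ_sum, Fintype.piFinset_univ]
  refine sum_congr rfl fun w _ => ?_
  split_ifs with h
  · rw [sn_sum, ← univ_inter T, ← Finset.prod_ite_mem univ T]
    refine prod_congr rfl fun i _ => ?_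
    rw [univ_inter]
    by_cases hi : i ∈ T
    · rw [if_pos hi, if_pos hi]
    · rw [if_neg hi, if_neg hi, if_pos (h i hi)]
  · push Not at h
    obtain ⟨i, hi, hi'⟩ := h
    refine prod_eq_zero (mem_univ i) ?_
    rw [if_neg hi, if_neg hi']

/-- one copy -/
theorem single {r : ℕ} {R : Type} [Fintype R] [DecidableEq R] (D : Par r) (lab : R → Gr r)
    (N : R → R → ZMod 2) (T : Finset R) :
    ((univ.filter fun y : (Fin 2 → Gr r) × (R → V) => Sol D lab N T y).card : ℝ) * 4 ^ T.card =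
      ∑ p ∈ univ.filter (fun p : (Fin 2 → Gr r) × (R → V × V) => (∀ i, i ∉ T → p.2 i = 0) ∧
        Xl lab T p.1 (fun i => (p.2 i).1) ∈ D.W),
        sn (∑ i ∈ T, om (p.2 i).2 (row D lab N T p.1 (fun j => (p.2 j).1) i)) := by
  rw [card_filter, Nat.cast_sum, sum_mul, sum_filter, Fintype.sum_prod_type, Fintype.sum_prod_type]
  refine sum_congr rfl fun s _ => ?_
  rw [Fintype.sum_equiv (Equiv.arrowProdEquivProdArrow R (fun _ => V) (fun _ => V))
    (fun z : R → V × V => if (∀ i, i ∉ T → z i = 0) ∧ Xl lab T s (fun i => (z i).1) ∈ D.W then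
      sn (∑ i ∈ T, om (z i).2 (row D lab N T s (fun j => (z j).1) i)) else 0)
    (fun q : (R → V) × (R → V) => if (∀ i, i ∉ T → q.1 i = 0) ∧ Xl lab T s q.1 ∈ D.W then
      (if ∀ i, i ∉ T → q.2 i = 0 then
        sn (∑ i ∈ T, om (q.2 i) (row D lab N T s q.1 i)) else 0) else 0)
    (fun z => by
      rw [← ite_and]
      refine if_congr ?_ rfl rfl
      constructor
      · rintro ⟨h1, h2⟩
        exact ⟨⟨fun i hi => congrArg Prod.fst (h1 i hi), h2⟩,
          fun i hi => congrArg Prod.snd (h1 i hi)⟩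
      · rintro ⟨⟨h1, h2⟩, h3⟩
        exact ⟨fun i hi => Prod.ext (h1 i hi) (h3 i hi), h2⟩)]
  rw [Fintype.sum_prod_type]
  refine sum_congr rfl fun v _ => ?_
  by_cases hc : (∀ i, i ∉ T → v i = 0) ∧ Xl lab T s v ∈ D.W
  · simp only [if_pos hc]
    rw [← detect T (row D lab N T s v)]
    congr 1
    rw [Nat.cast_ite, Nat.cast_one, Nat.cast_zero]
    refine if_congr ?_ rfl rfl
    exact ⟨fun h => h.2.2, fun h => ⟨hc.1, hc.2, h⟩⟩
  · simp only [if_neg hc, sum_const_zero]
    rw [if_neg, Nat.cast_zero, zero_mul]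
    intro h
    exact hc ⟨h.1, h.2.1⟩

/-- regrouping of the data of the copies -/
def regroup (S R Z ι : Type) : (ι → S × (R → Z)) ≃ (ι → S) × (R → ι → Z) where
  toFun p := (fun x => (p x).1, fun i x => (p x).2 i)
  invFun q := fun x => (q.1 x, fun i => q.2 i x)
  left_inv _ := rfl
  right_inv _ := rfl

/-- all the copies, for given symbols -/
theorem copies {r : ℕ} {R ι : Type} [Fintype R] [DecidableEq R] [Fintype ι] (D : Par r) (lab : R → Gr r)
    (N : R → R → ZMod 2) (T : ι → Finset R) :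
    ((univ.filter fun y : ι → (Fin 2 → Gr r) × (R → V) => ∀ x, Sol D lab N (T x) (y x)).card : ℝ) *
        4 ^ (∑ x, (T x).card) =
      ∑ s : ι → Fin 2 → Gr r, ∑ ζ : R → Dc ι,
        if (∀ i x, i ∉ T x → ζ i x = 0) ∧ XW D lab T s ζ then sn (Ex D lab N T s ζ) else 0 := by
  have h1 : (univ.filter fun y : ι → (Fin 2 → Gr r) × (R → V) => ∀ x, Sol D lab N (T x) (y x)) =
      Fintype.piFinset fun x => univ.filter fun y : (Fin 2 → Gr r) × (R → V) =>
        Sol D lab N (T x) y := by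
    ext y
    simp
  rw [h1, Fintype.card_piFinset, Nat.cast_prod, ← prod_pow_eq_pow_sum, ← prod_mul_distrib,
    prod_congr rfl fun x _ => single D lab N (T x), Finset.prod_univ_sum]
  rw [← Fintype.sum_prod_type (f := fun q : (ι → Fin 2 → Gr r) × (R → Dc ι) =>
    if (∀ i x, i ∉ T x → q.2 i x = 0) ∧ XW D lab T q.1 q.2 then sn (Ex D lab N T q.1 q.2) else 0)]
  rw [← Finset.sum_filter_of_ne (s := Fintype.piFinset _) (p := fun _ => True)
    (fun _ _ _ => trivial)]
  have h2 : (Fintype.piFinset fun x => univ.filter fun p : (Fin 2 → Gr r) × (R → V × V) =>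
      (∀ i, i ∉ T x → p.2 i = 0) ∧ Xl lab (T x) p.1 (fun i => (p.2 i).1) ∈ D.W) =
      univ.filter fun p : ι → (Fin 2 → Gr r) × (R → V × V) => ∀ x, (∀ i, i ∉ T x → (p x).2 i = 0) ∧
        Xl lab (T x) (p x).1 (fun i => ((p x).2 i).1) ∈ D.W := by
    ext p
    simp
  rw [Finset.filter_true, h2, sum_filter]
  refine Fintype.sum_equiv (regroup (Fin 2 → Gr r) R (V × V) ι) _ _ fun p => ?_
  refine if_congr ?_ ?_ rfl
  · constructor
    · intro h
      exact ⟨fun i x hi => (h x).1 i hi, fun x => (h x).2⟩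
    · rintro ⟨h1, h2⟩ x
      exact ⟨fun i hi => h1 i x hi, h2 x⟩
  · unfold Ex
    rw [sn_sum]
    rfl

/-- the sum over the symbols between the large primes -/
theorem sum_alpha {P : Type} [Fintype P] [DecidableEq P] (C : ZMod 2) (q : P → ZMod 2) :
    ∑ α : P → ZMod 2, sn (C + ∑ e, α e * q e) =
      if ∀ e, q e = 0 then 2 ^ Fintype.card P * sn C else 0 := by
  have h1 : ∀ α : P → ZMod 2, sn (C + ∑ e, α e * q e) = sn C * ∏ e, sn (α e * q e) := by
    intro α
    rw [sn_add, sn_sum]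
  simp_rw [h1]
  rw [← mul_sum]
  have h2 : ∑ α : P → ZMod 2, ∏ e, sn (α e * q e) = ∏ e : P, ∑ a : ZMod 2, sn (a * q e) := by
    rw [Finset.prod_univ_sum, Fintype.piFinset_univ]
  have h3 : ∀ b : ZMod 2, ∑ a : ZMod 2, sn (a * b) = if b = 0 then 2 else 0 := by
    intro b
    rw [sum_Z2, zero_mul, one_mul, sn_zero]
    rcases Z2_cases b with rfl | rfl
    · rw [if_pos rfl, sn_zero]
      norm_num
    · rw [if_neg (by decide), sn_one]
      norm_num
  rw [h2, prod_congr rfl fun e _ => h3 (q e)]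
  split_ifs with h
  · rw [prod_congr rfl fun e _ => if_pos (h e), prod_const, card_univ, mul_comm]
  · push Not at h
    obtain ⟨e, he⟩ := h
    rw [prod_eq_zero (mem_univ e) (if_neg he), mul_zero]

theorem om_add (w a b : V) : om w (a + b) = om w a + om w b := by
  simp only [om, Pi.add_apply]
  ring

theorem om_add' (w w' a : V) : om (w + w') a = om w a + om w' a := by
  simp only [om, Pi.add_apply]
  ring

theorem om_smul_sum {κ : Type} (w : V) (s : Finset κ) (m : κ → ZMod 2) (u : κ → V) :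
    om w (fun c => ∑ j ∈ s, m j * u j c) = ∑ j ∈ s, m j * om w (u j) := by
  simp only [om, mul_sum, ← sum_add_distrib]
  refine sum_congr rfl fun j _ => ?_
  ring

/-- change of the symbols -/
theorem Ex_change {r : ℕ} {R ι : Type} [Fintype ι] (D : Par r) (lab : R → Gr r)
    (N N' : R → R → ZMod 2) (T : ι → Finset R) (s : ι → Fin 2 → Gr r) (ζ : R → Dc ι) :
    Ex D lab N' T s ζ = Ex D lab N T s ζ + ∑ x, ∑ i ∈ T x, ∑ j ∈ T x,
      (N' i j + N i j) * om (ζ i x).2 ((ζ i x).1 + (ζ j x).1) := by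
  unfold Ex
  rw [← sum_add_distrib]
  refine sum_congr rfl fun x _ => ?_
  rw [← sum_add_distrib]
  refine sum_congr rfl fun i _ => ?_
  rw [← om_smul_sum, ← om_add]
  congr 1
  funext c
  simp only [row, Pi.add_apply]
  have h : ∀ j, N' i j * ((ζ i x).1 c + (ζ j x).1 c) =
      N i j * ((ζ i x).1 c + (ζ j x).1 c) + (N' i j + N i j) * ((ζ i x).1 c + (ζ j x).1 c) := by
    intro j
    rw [← add_mul, add_comm (N' i j), ← add_assoc, Z2_add_self, zero_add]
  rw [sum_congr rfl fun j _ => h j, sum_add_distrib]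
  ring

/-- the free symbols as a function of the pairs -/
noncomputable def ae {J : Type} [Fintype J] [LinearOrder J] (α : prs J → ZMod 2) (p : J × J) :
    ZMod 2 := if h : p ∈ prs J then α ⟨p, h⟩ else 0

theorem ext_add {J : Type} [Fintype J] [LinearOrder J] (t : J → ZMod 2) (α : prs J → ZMod 2)
    (k l : J) : Pool.Agent.N869.QT.L.ext t α k l + Pool.Agent.N869.QT.L.ext t 0 k l =
      ae α (l, k) + ae α (k, l) := by
  unfold Pool.Agent.N869.QT.L.ext ae
  by_cases h : (l, k) ∈ prs J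
  · have h' : (k, l) ∉ prs J := by
      unfold prs at h ⊢
      rw [mem_filter] at h ⊢
      exact fun h2 => lt_asymm h.2 h2.2
    simp only [dif_pos h, dif_neg h', Pi.zero_apply, add_zero]
  · by_cases h' : (k, l) ∈ prs J
    · simp only [dif_neg h, dif_pos h', Pi.zero_apply, zero_add]
      rw [add_assoc, Z2_add_self, add_zero]
    · simp only [dif_neg h, dif_neg h', add_zero]

theorem sum_ae {J : Type} [Fintype J] [LinearOrder J] (α : prs J → ZMod 2) (F : J × J → ZMod 2) :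
    ∑ p, ae α p * F p = ∑ e : prs J, α e * F e.1 := by
  have h1 : ∑ p, ae α p * F p = ∑ p ∈ prs J, ae α p * F p := by
    symm
    apply sum_subset (subset_univ _)
    intro p _ hp
    unfold ae
    rw [dif_neg hp, zero_mul]
  rw [h1, ← Finset.sum_coe_sort (prs J)]
  refine sum_congr rfl fun e _ => ?_
  unfold ae
  rw [dif_pos e.2]

theorem sum_sym {J : Type} [Fintype J] [LinearOrder J] (α : prs J → ZMod 2) (h : J → J → ZMod 2) :
    ∑ k, ∑ l, (ae α (l, k) + ae α (k, l)) * h k l =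
      ∑ e : prs J, α e * (h e.1.1 e.1.2 + h e.1.2 e.1.1) := by
  have h1 : ∑ k, ∑ l, (ae α (l, k) + ae α (k, l)) * h k l =
      ∑ p : J × J, (ae α (p.2, p.1) * h p.1 p.2 + ae α (p.1, p.2) * h p.1 p.2) := by
    rw [Fintype.sum_prod_type]
    refine sum_congr rfl fun k _ => sum_congr rfl fun l _ => ?_
    rw [add_mul]
  have h2 : ∑ p : J × J, ae α (p.2, p.1) * h p.1 p.2 = ∑ p : J × J, ae α p * h p.2 p.1 :=
    Fintype.sum_equiv (Equiv.prodComm J J) _ _ fun p => rfl
  have h3 : ∑ p : J × J, ae α (p.1, p.2) * h p.1 p.2 = ∑ p : J × J, ae α p * h p.1 p.2 := rfl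
  rw [h1, sum_add_distrib, h2, h3, sum_ae α (fun p => h p.2 p.1), sum_ae α (fun p => h p.1 p.2),
    ← sum_add_distrib]
  refine sum_congr rfl fun e _ => ?_
  rw [mul_add, add_comm]

theorem sum_out {J ι : Type} [Fintype J] [Fintype ι] (m : J → J → ZMod 2)
    (f : ι → J → J → ZMod 2) :
    ∑ x, ∑ k, ∑ l, m k l * f x k l = ∑ k, ∑ l, m k l * ∑ x, f x k l := by
  rw [sum_comm]
  refine sum_congr rfl fun k _ => ?_
  rw [sum_comm]
  refine sum_congr rfl fun l _ => ?_
  rw [mul_sum]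

theorem sum_mem {J : Type} [Fintype J] [DecidableEq J] (S : Finset J) (f : J → ZMod 2) :
    ∑ k ∈ S, f k = ∑ k, if k ∈ S then f k else 0 := by
  rw [Finset.sum_ite_mem, univ_inter]

theorem sum_mem2 {J : Type} [Fintype J] [DecidableEq J] (S : Finset J) (m f : J → J → ZMod 2) :
    ∑ k ∈ S, ∑ l ∈ S, m k l * f k l =
      ∑ k, ∑ l, m k l * (if k ∈ S ∧ l ∈ S then f k l else 0) := by
  rw [sum_mem S]
  refine sum_congr rfl fun k _ => ?_
  by_cases hk : k ∈ S
  · rw [if_pos hk, sum_mem S]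
    refine sum_congr rfl fun l _ => ?_
    by_cases hl : l ∈ S
    · rw [if_pos hl, if_pos ⟨hk, hl⟩]
    · rw [if_neg hl, if_neg (fun h => hl h.2), mul_zero]
  · rw [if_neg hk]
    symm
    refine sum_eq_zero fun l _ => ?_
    rw [if_neg (fun h => hk h.1), mul_zero]

theorem Qs_comm {ι : Type} [Fintype ι] (B : Finset ι) (ζ ζ' : Dc ι) : Qs B ζ ζ' = Qs B ζ' ζ := by
  unfold Qs
  refine sum_congr rfl fun x _ => ?_
  rw [add_comm (ζ x).1, add_comm (ζ x).2]

section

variable {r : ℕ} {U J I Q ι : Type} [Fintype U] [Fintype J] [LinearOrder J] [Fintype ι]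

omit [Fintype U] in
/-- the dependence of the exponent on the free symbols -/
theorem Ex_alpha (D : Par r) (W : I → Finset U) (E : I → Finset Q) (g : J → Q) (c : ι → I)
    (lU : U → Gr r) (lJ : J → Gr r) (A : U → U → ZMod 2) (B : U → J → ZMod 2)
    (α : prs J → ZMod 2) (s : ι → Fin 2 → Gr r) (ζ : U ⊕ J → Dc ι) :
    Ex D (Sum.elim lU lJ) (Nm D lU lJ A B α) (fun x => TT W E g (c x)) s ζ =
      Ex D (Sum.elim lU lJ) (Nm D lU lJ A B 0) (fun x => TT W E g (c x)) s ζ +
        ∑ e : prs J, α e * Qs (Aq E c (g e.1.1) ∩ Aq E c (g e.1.2)) (ζ (.inr e.1.1))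
          (ζ (.inr e.1.2)) := by
  rw [Ex_change D _ (Nm D lU lJ A B 0) (Nm D lU lJ A B α)]
  congr 1
  have h1 : ∀ x, ∑ i ∈ TT W E g (c x), ∑ j ∈ TT W E g (c x),
      (Nm D lU lJ A B α i j + Nm D lU lJ A B 0 i j) * om (ζ i x).2 ((ζ i x).1 + (ζ j x).1) =
      ∑ k : J, ∑ l : J, (ae α (l, k) + ae α (k, l)) *
        (if k ∈ Lc E g (c x) ∧ l ∈ Lc E g (c x) then
          om (ζ (.inr k) x).2 ((ζ (.inr k) x).1 + (ζ (.inr l) x).1) else 0) := by
    intro x
    unfold TT
    rw [sum_disjSum]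
    have h2 : ∑ u ∈ W (c x), ∑ j ∈ (W (c x)).disjSum (Lc E g (c x)),
        (Nm D lU lJ A B α (Sum.inl u) j + Nm D lU lJ A B 0 (Sum.inl u) j) *
          om (ζ (Sum.inl u) x).2 ((ζ (Sum.inl u) x).1 + (ζ j x).1) = 0 := by
      refine sum_eq_zero fun u _ => sum_eq_zero fun j _ => ?_
      have h3 : Nm D lU lJ A B α (Sum.inl u) j + Nm D lU lJ A B 0 (Sum.inl u) j = 0 := by
        cases j <;> exact Z2_add_self _
      rw [h3, zero_mul]
    rw [h2, zero_add]
    have h4 : ∀ k, ∑ j ∈ (W (c x)).disjSum (Lc E g (c x)),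
        (Nm D lU lJ A B α (Sum.inr k) j + Nm D lU lJ A B 0 (Sum.inr k) j) *
          om (ζ (Sum.inr k) x).2 ((ζ (Sum.inr k) x).1 + (ζ j x).1) =
        ∑ l ∈ Lc E g (c x), (ae α (l, k) + ae α (k, l)) *
          om (ζ (.inr k) x).2 ((ζ (.inr k) x).1 + (ζ (.inr l) x).1) := by
      intro k
      rw [sum_disjSum]
      have h5 : ∑ u ∈ W (c x),
          (Nm D lU lJ A B α (Sum.inr k) (Sum.inl u) + Nm D lU lJ A B 0 (Sum.inr k) (Sum.inl u)) *
            om (ζ (Sum.inr k) x).2 ((ζ (Sum.inr k) x).1 + (ζ (Sum.inl u) x).1) = 0 := by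
        refine sum_eq_zero fun u _ => ?_
        have h3 : Nm D lU lJ A B α (Sum.inr k) (Sum.inl u) +
            Nm D lU lJ A B 0 (Sum.inr k) (Sum.inl u) = 0 := Z2_add_self _
        rw [h3, zero_mul]
      rw [h5, zero_add]
      refine sum_congr rfl fun l _ => ?_
      congr 1
      exact ext_add (fun k => dot D.em (lJ k)) α k l
    rw [sum_congr rfl fun k _ => h4 k]
    exact sum_mem2 (Lc E g (c x)) (fun k l => ae α (l, k) + ae α (k, l))
      (fun k l => om (ζ (.inr k) x).2 ((ζ (.inr k) x).1 + (ζ (.inr l) x).1))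
  rw [sum_congr rfl fun x _ => h1 x]
  rw [sum_out (fun k l => ae α (l, k) + ae α (k, l)) (fun x k l =>
    if k ∈ Lc E g (c x) ∧ l ∈ Lc E g (c x) then
      om (ζ (.inr k) x).2 ((ζ (.inr k) x).1 + (ζ (.inr l) x).1) else 0)]
  rw [sum_sym α (fun k l => ∑ x, if k ∈ Lc E g (c x) ∧ l ∈ Lc E g (c x) then
      om (ζ (.inr k) x).2 ((ζ (.inr k) x).1 + (ζ (.inr l) x).1) else 0)]
  refine sum_congr rfl fun e _ => ?_
  congr 1
  rw [← sum_add_distrib]
  unfold Qs
  have h8 : (Aq E c (g e.1.1) ∩ Aq E c (g e.1.2)) = univ.filter fun x =>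
      e.1.1 ∈ Lc E g (c x) ∧ e.1.2 ∈ Lc E g (c x) := by
    ext x
    simp [Aq, Lc]
  rw [h8, sum_filter]
  refine sum_congr rfl fun x _ => ?_
  by_cases hx : e.1.1 ∈ Lc E g (c x) ∧ e.1.2 ∈ Lc E g (c x)
  · rw [if_pos hx, if_pos hx.symm, if_pos hx, om_add', add_comm (ζ (.inr e.1.2) x).1]
  · rw [if_neg hx, if_neg (fun h => hx h.symm), if_neg hx, add_zero]

end

theorem t_EXP : S_EXP := by
  intro r D U J I Q ι _ _ _ _ W E g c lU lJ A B
  have h1 : ((univ.filter fun y : (prs J → ZMod 2) × (ι → (Fin 2 → Gr r) × (U ⊕ J → V)) =>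
      ∀ x, Sol D (Sum.elim lU lJ) (Nm D lU lJ A B y.1) (TT W E g (c x)) (y.2 x)).card : ℝ) =
      ∑ α : prs J → ZMod 2, ((univ.filter fun y : ι → (Fin 2 → Gr r) × (U ⊕ J → V) =>
        ∀ x, Sol D (Sum.elim lU lJ) (Nm D lU lJ A B α) (TT W E g (c x)) (y x)).card : ℝ) := by
    rw [card_filter, Fintype.sum_prod_type, Nat.cast_sum]
    refine sum_congr rfl fun α _ => ?_
    rw [card_filter]
  have h0 : ∀ α : prs J → ZMod 2, _ := fun α =>
    copies D (Sum.elim lU lJ) (Nm D lU lJ A B α) (fun x => TT W E g (c x))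
  rw [h1, sum_mul, sum_congr rfl fun α _ => h0 α]
  rw [sum_comm, mul_sum]
  refine sum_congr rfl fun s _ => ?_
  rw [sum_comm, sum_filter, mul_sum]
  refine sum_congr rfl fun ζ _ => ?_
  by_cases hc : (∀ i x, i ∉ TT W E g (c x) → ζ i x = 0) ∧
      XW D (Sum.elim lU lJ) (fun x => TT W E g (c x)) s ζ
  · simp only [if_pos hc]
    rw [sum_congr rfl fun α _ => congrArg sn (Ex_alpha D W E g c lU lJ A B α s ζ)]
    have h2 := sum_alpha (P := prs J)
      (Ex D (Sum.elim lU lJ) (Nm D lU lJ A B 0) (fun x => TT W E g (c x)) s ζ)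
      (fun e => Qs (Aq E c (g e.1.1) ∩ Aq E c (g e.1.2)) (ζ (.inr e.1.1)) (ζ (.inr e.1.2)))
    refine h2.trans ?_
    rw [Fintype.card_coe]
    have h3 : (∀ e : prs J, Qs (Aq E c (g e.1.1) ∩ Aq E c (g e.1.2)) (ζ (.inr e.1.1))
        (ζ (.inr e.1.2)) = 0) ↔ ((∀ i x, i ∉ TT W E g (c x) → ζ i x = 0) ∧
        XW D (Sum.elim lU lJ) (fun x => TT W E g (c x)) s ζ ∧
        ∀ k l, k ≠ l → Qs (Aq E c (g k) ∩ Aq E c (g l)) (ζ (.inr k)) (ζ (.inr l)) = 0) := by
      constructor
      · intro h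
        refine ⟨hc.1, hc.2, fun k l hkl => ?_⟩
        rcases lt_or_gt_of_ne hkl with hlt | hlt
        · exact h ⟨(k, l), by
            unfold prs
            rw [mem_filter]
            exact ⟨mem_univ _, hlt⟩⟩
        · rw [Qs_comm, inter_comm]
          exact h ⟨(l, k), by
            unfold prs
            rw [mem_filter]
            exact ⟨mem_univ _, hlt⟩⟩
      · rintro ⟨-, -, h⟩ e
        have he := e.2
        unfold prs at he
        rw [mem_filter] at he
        exact h _ _ he.2.ne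
    rw [if_congr h3 rfl rfl, mul_ite, mul_zero]
  · simp only [if_neg hc, sum_const_zero]
    rw [if_neg, mul_zero]
    rintro ⟨h1, h2, -⟩
    exact hc ⟨h1, h2⟩

end Pool.Agent.N527.GK.Exp
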